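import Pool.Agent.RDO.Stmts

/-!
# Row CPA of squad RDO: the area of the cap
-/

set_option autoImplicit false

open MeasureTheory
open scoped ENNReal

namespace Pool.Agent.RDO.H13

open Pool.Agent.RDO

/-- the integral of `2 √2 √(1 - x)` -/
theorem int_sqrt (q : ℝ) (hq1 : q ≤ 1) :
    ∫ x in q..1, 2 * √2 * √(1 - x) = 4 * √2 / 3 * ((1 - q) * √(1 - q)) := by
  rw [intervalIntegral.integral_const_mul]
  rw [intervalIntegral.integral_comp_sub_left (fun x => √x) 1, sub_self]
  have h1 : ∫ x in (0 : ℝ)..(1 - q), √x = ∫ x in (0 : ℝ)..(1 - q), x ^ (1 / 2 : ℝ) := by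
    refine intervalIntegral.integral_congr fun x _ => ?_
    exact Real.sqrt_eq_rpow x
  rw [h1, integral_rpow (Or.inl (by norm_num))]
  have h2 : (0 : ℝ) ^ (1 / 2 + 1 : ℝ) = 0 := Real.zero_rpow (by norm_num)
  have h3 : (1 - q) ^ (1 / 2 + 1 : ℝ) = √(1 - q) * (1 - q) := by
    rw [Real.rpow_add_one' (by linarith) (by norm_num), Real.sqrt_eq_rpow]
  rw [h2, h3]
  ring

/-- the region in `ℝ × ℝ` -/
def Reg (q : ℝ) : Set (ℝ × ℝ) := {p | (q ≤ p.1 ∧ p.1 ≤ 1) ∧ |p.2| ≤ √2 * √(1 - p.1)}

theorem meas_reg (q : ℝ) : MeasurableSet (Reg q) := by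
  apply IsClosed.measurableSet
  unfold Reg
  refine IsClosed.inter (IsClosed.inter ?_ ?_) ?_
  · exact isClosed_le continuous_const continuous_fst
  · exact isClosed_le continuous_fst continuous_const
  · exact isClosed_le (continuous_abs.comp continuous_snd) (by fun_prop)

theorem vol_reg (q : ℝ) (hq1 : q ≤ 1) :
    volume (Reg q) ≤ ENNReal.ofReal (4 * √2 / 3 * ((1 - q) * √(1 - q))) := by
  rw [Measure.volume_eq_prod, Measure.prod_apply (meas_reg q)]
  have h1 : ∀ x, volume (Prod.mk x ⁻¹' Reg q) ≤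
      (Set.Ioc q 1).indicator (fun x => ENNReal.ofReal (2 * √2 * √(1 - x))) x +
      ({q} : Set ℝ).indicator (fun x => ENNReal.ofReal (2 * √2 * √(1 - x))) x := by
    intro x
    by_cases hx : q ≤ x ∧ x ≤ 1
    · have h2 : Prod.mk x ⁻¹' Reg q ⊆ Set.Icc (-(√2 * √(1 - x))) (√2 * √(1 - x)) := by
        intro y hy
        exact abs_le.1 hy.2
      have h3 : volume (Prod.mk x ⁻¹' Reg q) ≤ ENNReal.ofReal (2 * √2 * √(1 - x)) := by
        refine (measure_mono h2).trans ?_
        rw [Real.volume_Icc]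
        apply ENNReal.ofReal_le_ofReal
        linarith
      rcases lt_or_eq_of_le hx.1 with h | h
      · rw [Set.indicator_of_mem (show x ∈ Set.Ioc q 1 from ⟨h, hx.2⟩)]
        exact h3.trans le_self_add
      · rw [Set.indicator_of_mem (show x ∈ ({q} : Set ℝ) from h.symm)]
        exact h3.trans le_add_self
    · have h2 : Prod.mk x ⁻¹' Reg q = ∅ := by
        ext y
        constructor
        · intro hy
          exact hx hy.1
        · intro hy
          exact hy.elim
      rw [h2, measure_empty]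
      exact zero_le'
  refine (lintegral_mono h1).trans ?_
  rw [lintegral_add_right, lintegral_indicator measurableSet_Ioc,
    lintegral_indicator (measurableSet_singleton q)]
  · have h4 : ∫⁻ a in ({q} : Set ℝ), ENNReal.ofReal (2 * √2 * √(1 - a)) = 0 :=
      setLIntegral_measure_zero _ _ Real.volume_singleton
    rw [h4, add_zero, ← int_sqrt q hq1, intervalIntegral.integral_of_le hq1,
      ofReal_integral_eq_lintegral_ofReal]
    · have : IntervalIntegrable (fun x => 2 * √2 * √(1 - x)) volume q 1 :=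
        Continuous.intervalIntegrable (by fun_prop) _ _
      exact (intervalIntegrable_iff_integrableOn_Ioc_of_le hq1).1 this
    · exact Filter.Eventually.of_forall fun x => by positivity
  · exact (Measurable.indicator (by fun_prop) (measurableSet_singleton q))

theorem cpa : CpaStmt := by
  intro q hq0 hq1
  have hmp : MeasurePreserving (fun x : P2 => (MeasurableEquiv.finTwoArrow (WithLp.ofLp x) : ℝ × ℝ)) :=
    (volume_preserving_finTwoArrow ℝ).comp (PiLp.volume_preserving_ofLp (Fin 2))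
  have hsub : Cap q ⊆ (fun x : P2 => (MeasurableEquiv.finTwoArrow (WithLp.ofLp x) : ℝ × ℝ)) ⁻¹' Reg q := by
    rintro x ⟨hx, hxq⟩
    have h1 : ‖x‖ ^ 2 = x 0 ^ 2 + x 1 ^ 2 := by
      rw [EuclideanSpace.norm_sq_eq]
      simp
    have h2 : ‖x‖ ≤ 1 := by
      rw [mem_closedBall_zero_iff] at hx
      exact hx
    have h3 : x 0 ^ 2 + x 1 ^ 2 ≤ 1 := by
      rw [← h1]
      nlinarith [norm_nonneg x]
    have h4 : x 0 ≤ 1 := by nlinarith [sq_nonneg (x 1)]
    refine ⟨⟨hxq, h4⟩, ?_⟩
    change |x 1| ≤ √2 * √(1 - x 0)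
    rw [← Real.sqrt_mul (by norm_num)]
    apply Real.abs_le_sqrt
    nlinarith
  calc volume (Cap q) ≤ volume ((fun x : P2 => (MeasurableEquiv.finTwoArrow (WithLp.ofLp x) : ℝ × ℝ)) ⁻¹'
        Reg q) := measure_mono hsub
    _ = volume (Reg q) := hmp.measure_preimage (meas_reg q).nullMeasurableSet
    _ ≤ _ := vol_reg q hq1

end Pool.Agent.RDO.H13
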